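import Pool.Agent.N889.AO.Stm

/-!
# AO/FLAG: no power of an Anosov automorphism has a one-dimensional invariant subquotient
-/

set_option autoImplicit false
open Polynomial Matrix

namespace Pool.Agent.N457.AO.Flag

open Pool.Agent.N889.AO

variable {ι : Type} [Fintype ι] [DecidableEq ι]

/-- a rational eigenvalue of the power -/
lemma exists_eigen (F : Matrix ι ι ℚ) (U : Submodule ℚ (ι → ℚ)) (v : ι → ℚ) (k : ℕ)
    (hv : v ∉ U) (hU : ∀ x ∈ U, (F ^ k) *ᵥ x ∈ U)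
    (hv2 : (F ^ k) *ᵥ v ∈ U ⊔ Submodule.span ℚ {v}) :
    ∃ a : ℚ, (F ^ k).charpoly.IsRoot a := by
  obtain ⟨u, hu, y, hy, huy⟩ := Submodule.mem_sup.1 hv2
  obtain ⟨a, rfl⟩ := Submodule.mem_span_singleton.1 hy
  refine ⟨a, ?_⟩
  set T : (ι → ℚ) →ₗ[ℚ] (ι → ℚ) := (F ^ k).mulVecLin - a • LinearMap.id with hT
  have hTx : ∀ x, T x = (F ^ k) *ᵥ x - a • x := fun x => rfl
  have h1 : ∀ x ∈ U ⊔ Submodule.span ℚ {v}, T x ∈ U := by
    intro x hx
    obtain ⟨u', hu', y', hy', rfl⟩ := Submodule.mem_sup.1 hx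
    obtain ⟨b, rfl⟩ := Submodule.mem_span_singleton.1 hy'
    rw [map_add, map_smul, hTx, hTx, ← huy]
    refine U.add_mem (U.sub_mem (hU u' hu') (U.smul_mem a hu')) (U.smul_mem b ?_)
    rw [add_sub_cancel_right]
    exact hu
  have hlt : U < U ⊔ Submodule.span ℚ {v} := by
    refine lt_of_le_of_ne le_sup_left fun h => hv ?_
    rw [h]
    exact Submodule.mem_sup_right (Submodule.mem_span_singleton_self v)
  have hfr := Submodule.finrank_lt_finrank_of_lt hlt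
  have hker := LinearMap.ker_ne_bot_of_finrank_lt (f := T.restrict h1) hfr
  obtain ⟨x, hx, hx0⟩ := (Submodule.ne_bot_iff _).1 hker
  have hx1 : T x = 0 := by
    have := congrArg Subtype.val (LinearMap.mem_ker.1 hx)
    simpa using this
  have hx2 : (x : ι → ℚ) ≠ 0 := fun h => hx0 (Subtype.ext h)
  rw [Polynomial.IsRoot, Matrix.eval_charpoly]
  rw [← Matrix.exists_mulVec_eq_zero_iff]
  refine ⟨x, hx2, ?_⟩
  rw [Matrix.sub_mulVec, hTx] at *
  rw [sub_eq_zero] at hx1 ⊢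
  rw [hx1]
  simp [Matrix.scalar_apply]

lemma eigen_C (F : Matrix ι ι ℚ) (k : ℕ) (hk : 0 < k) (a : ℚ) (ha : (F ^ k).charpoly.IsRoot a) :
    ∃ z : ℂ, (F.charpoly.map (algebraMap ℚ ℂ)).IsRoot z ∧ z ^ k = (a : ℂ) := by
  set A : Matrix ι ι ℂ := F.map (algebraMap ℚ ℂ) with hA
  have hAk : A ^ k = (F ^ k).map (algebraMap ℚ ℂ) := by
    rw [hA]
    exact ((algebraMap ℚ ℂ).mapMatrix.map_pow F k).symm
  have h1 : (A ^ k).charpoly.IsRoot ((algebraMap ℚ ℂ) a) := by
    rw [hAk, Matrix.charpoly_map]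
    exact ha.map
  have h2 : (algebraMap ℚ ℂ) a ∈ spectrum ℂ (A ^ k) :=
    Matrix.mem_spectrum_iff_isRoot_charpoly.2 h1
  rw [spectrum.map_pow_of_pos A hk] at h2
  obtain ⟨z, hz, hz2⟩ := h2
  refine ⟨z, ?_, hz2⟩
  have h3 := Matrix.mem_spectrum_iff_isRoot_charpoly.1 hz
  rw [hA, Matrix.charpoly_map] at h3
  exact h3

lemma unit_rat (p : ℤ[X]) (hp : p.Monic) (h0 : p.coeff 0 = 1 ∨ p.coeff 0 = -1) (z : ℂ)
    (hz : (p.map (Int.castRingHom ℂ)).IsRoot z) (k : ℕ) (hk : 0 < k) (a : ℚ)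
    (ha : z ^ k = (a : ℂ)) : ‖z‖ = 1 := by
  have hz' : Polynomial.aeval z p = 0 := by
    rw [Polynomial.aeval_def, ← Polynomial.eval_map]
    exact hz
  have hi : IsIntegral ℤ z := ⟨p, hp, by rw [← Polynomial.aeval_def]; exact hz'⟩
  -- the inverse
  have h1 : z * Polynomial.aeval z p.divX + ((p.coeff 0 : ℤ) : ℂ) = 0 := by
    have h2 := congrArg (Polynomial.aeval z) (Polynomial.X_mul_divX_add p)
    rw [hz'] at h2
    simpa using h2
  obtain ⟨w, hw, hzw⟩ : ∃ w : ℂ, IsIntegral ℤ w ∧ z * w = 1 := by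
    have h3 : IsIntegral ℤ (Polynomial.aeval z p.divX) :=
      adjoin_le_integralClosure hi (Polynomial.aeval_mem_adjoin_singleton ℤ z)
    rcases h0 with h0 | h0
    · refine ⟨-Polynomial.aeval z p.divX, h3.neg, ?_⟩
      rw [h0] at h1
      push_cast at h1
      linear_combination -h1
    · refine ⟨Polynomial.aeval z p.divX, h3, ?_⟩
      rw [h0] at h1
      push_cast at h1
      linear_combination h1
  have hz0 : z ≠ 0 := left_ne_zero_of_mul_eq_one hzw
  have haint : ∃ m : ℤ, (m : ℚ) = a := by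
    have h4 : IsIntegral ℤ ((algebraMap ℚ ℂ) a) := by
      have : (algebraMap ℚ ℂ) a = z ^ k := ha.symm
      rw [this]
      exact hi.pow k
    have h5 : IsIntegral ℤ a := (isIntegral_algebraMap_iff (algebraMap ℚ ℂ).injective).1 h4
    obtain ⟨m, hm⟩ := IsIntegrallyClosed.isIntegral_iff.1 h5
    exact ⟨m, by simpa using hm⟩
  have haint' : ∃ m : ℤ, (m : ℚ) = a⁻¹ := by
    have h4 : IsIntegral ℤ ((algebraMap ℚ ℂ) a⁻¹) := by
      have : (algebraMap ℚ ℂ) a⁻¹ = w ^ k := by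
        rw [map_inv₀]
        have h6 : (algebraMap ℚ ℂ) a = z ^ k := ha.symm
        rw [h6]
        have h7 : z ^ k * w ^ k = 1 := by rw [← mul_pow, hzw, one_pow]
        exact inv_eq_of_mul_eq_one_right h7
      rw [this]
      exact hw.pow k
    have h5 : IsIntegral ℤ a⁻¹ := (isIntegral_algebraMap_iff (algebraMap ℚ ℂ).injective).1 h4
    obtain ⟨m, hm⟩ := IsIntegrallyClosed.isIntegral_iff.1 h5
    exact ⟨m, by simpa using hm⟩
  obtain ⟨m, hm⟩ := haint
  obtain ⟨m', hm'⟩ := haint'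
  have ha0 : a ≠ 0 := by
    intro h
    rw [h, Rat.cast_zero] at ha
    exact hz0 (pow_eq_zero_iff hk.ne' |>.1 ha)
  have hmm : m * m' = 1 := by
    have : ((m * m' : ℤ) : ℚ) = 1 := by
      push_cast
      rw [hm, hm', mul_inv_cancel₀ ha0]
    exact_mod_cast this
  have hm1 : |m| = 1 := Int.isUnit_iff_abs_eq.1 (IsUnit.of_mul_eq_one _ hmm)
  have hn : ‖z‖ ^ k = 1 := by
    rw [← norm_pow, ha, ← hm]
    push_cast
    rw [Complex.norm_intCast]
    exact_mod_cast hm1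
  exact (pow_eq_one_iff_of_nonneg (norm_nonneg z) hk.ne').1 hn

theorem stmFlag : StmFlag := by
  intro ι _ _ F U v k hk hv hU hv2 hAn
  obtain ⟨p, hp1, hp2, hp3⟩ := hAn
  obtain ⟨a, ha⟩ := exists_eigen F U v k hv hU hv2
  obtain ⟨z, hz, hza⟩ := eigen_C F k hk a ha
  have hmon : p.Monic := by
    refine Polynomial.monic_of_injective (f := Int.castRingHom ℚ) Int.cast_injective ?_
    rw [hp1]
    exact F.charpoly_monic
  have hz2 : (p.map (Int.castRingHom ℂ)).IsRoot z := by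
    rw [← hp1, Polynomial.map_map] at hz
    have : (algebraMap ℚ ℂ).comp (Int.castRingHom ℚ) = Int.castRingHom ℂ :=
      RingHom.ext_int _ _
    rwa [this] at hz
  exact hp3 z hz2 (unit_rat p hmon hp2 z hz2 k hk a hza)

end Pool.Agent.N457.AO.Flag
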